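import Mathlib
import Pool.Agent.Results.MP_4681e4_al.AscendingHNN

/-!
Central elements of amalgams and HNN extensions over central subgroups: they lie in the edge group.
-/

set_option autoImplicit false

namespace Y643.AC

open Monoid Pool.Agent.Results.MP_4681e4_al.AscendingChain
  Pool.Agent.Results.MP_4681e4_al.AscendingHNN

section Center

variable {M : Bool → Type} [∀ b, Group (M b)]

theorem word_prod_injective [∀ b, DecidableEq (M b)] :
    Function.Injective (CoprodI.Word.prod : CoprodI.Word M → CoprodI M) :=
  CoprodI.Word.equiv.symm.injective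

theorem neWord_toList_eq {i j k l : Bool} (w : CoprodI.NeWord M i j) (v : CoprodI.NeWord M k l)
    (h : w.prod = v.prod) : w.toList = v.toList := by
  classical
  have h2 : w.toWord = v.toWord := word_prod_injective h
  exact congrArg CoprodI.Word.toList h2

/-- the centre of a free product of two nontrivial groups is trivial -/
theorem central_eq_one (hM : ∀ b, Nontrivial (M b)) (z : CoprodI M) (hz : ∀ x, x * z = z * x) :
    z = 1 := by
  classical
  by_contra hne
  have hw : CoprodI.Word.equiv z ≠ CoprodI.Word.empty := by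
    intro h
    apply hne
    have h1 := congrArg CoprodI.Word.prod h
    rw [CoprodI.Word.prod_empty] at h1
    rw [← h1]
    exact (CoprodI.Word.equiv.symm_apply_apply z).symm
  obtain ⟨i, j, w', hw'⟩ := CoprodI.NeWord.of_word _ hw
  have hprod : w'.prod = z := by
    unfold CoprodI.NeWord.prod
    rw [hw']
    exact CoprodI.Word.equiv.symm_apply_apply z
  obtain ⟨c, hc⟩ := exists_ne (1 : M (!j))
  have hj1 : j ≠ !j := by cases j <;> simp
  have hj2 : (!j) ≠ j := hj1.symm
  have h1 : ((w'.append hj1 (CoprodI.NeWord.singleton c hc)).append hj2 w'.inv).prod =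
      (CoprodI.NeWord.singleton c hc).prod := by
    rw [CoprodI.NeWord.append_prod, CoprodI.NeWord.append_prod, CoprodI.NeWord.inv_prod, hprod,
      ← hz]
    group
  have h3 := neWord_toList_eq _ _ h1
  have h4 := congrArg List.length h3
  have h5 : 0 < w'.toList.length := List.length_pos_of_ne_nil (CoprodI.NeWord.toList_ne_nil _)
  have h6 : ((w'.append hj1 (CoprodI.NeWord.singleton c hc)).append hj2 w'.inv).toList =
      (w'.toList ++ [⟨!j, c⟩]) ++ w'.inv.toList := rfl
  have h7 : (CoprodI.NeWord.singleton c hc).toList = [⟨!j, c⟩] := rfl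
  rw [h6, h7] at h4
  simp only [List.length_append, List.length_cons, List.length_nil] at h4
  omega

theorem not_commute (c : M true) (hc : c ≠ 1) (d : M false) (hd : d ≠ 1) :
    CoprodI.of c * CoprodI.of d ≠ (CoprodI.of d * CoprodI.of c : CoprodI M) := by
  intro h
  have h1 : ((CoprodI.NeWord.singleton c hc).append (by decide)
      (CoprodI.NeWord.singleton d hd)).prod =
      ((CoprodI.NeWord.singleton d hd).append (by decide) (CoprodI.NeWord.singleton c hc)).prod := by
    rw [CoprodI.NeWord.append_prod, CoprodI.NeWord.append_prod, CoprodI.NeWord.prod_singleton,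
      CoprodI.NeWord.prod_singleton]
    exact h
  have h3 := neWord_toList_eq _ _ h1
  have h6 : ((CoprodI.NeWord.singleton c hc).append (by decide)
      (CoprodI.NeWord.singleton d hd)).toList = [⟨true, c⟩, ⟨false, d⟩] := rfl
  have h7 : ((CoprodI.NeWord.singleton d hd).append (by decide)
      (CoprodI.NeWord.singleton c hc)).toList = [⟨false, d⟩, ⟨true, c⟩] := rfl
  rw [h6, h7] at h3
  have h8 := congrArg (fun l : List (Σ b, M b) => l.head?.map Sigma.fst) h3
  simp at h8

end Center

section Amalgam

variable {G : Type} [Group G]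

/-- A central element of a nontrivial amalgam over a normal subgroup lies in this subgroup. -/
theorem central_mem_of_amalgam {A B C : Subgroup G} [hN : C.Normal] (h : IsAmalgam A B C) (z : G)
    (hz : ∀ x, x * z = z * x) : z ∈ C := by
  obtain ⟨hCA, hCB, hle, hbij⟩ := h
  let p := QuotientGroup.mk' C
  let N : Bool → Subgroup (G ⧸ C) := fun b => (factors A B b).map p
  have hnt : ∀ b, Nontrivial (N b) := by
    intro b
    have hb : C ≠ factors A B b := by cases b <;> assumption
    have hb2 : C < factors A B b := lt_of_le_of_ne (hle b) hb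
    obtain ⟨x, hx, hxC⟩ := SetLike.exists_of_lt hb2
    refine ⟨⟨⟨p x, ⟨x, hx, rfl⟩⟩, 1, ?_⟩⟩
    intro h1
    apply hxC
    exact (QuotientGroup.eq_one_iff x).mp (congrArg Subtype.val h1)
  let fam : ∀ b, factors A B b →* CoprodI (fun b => N b) := fun b =>
    (CoprodI.of (M := fun b => N b) (i := b)).comp (p.subgroupMap (factors A B b))
  have hfam : ∀ b (x : factors A B b), fam b x = CoprodI.of (M := fun b => N b) (i := b)
      ⟨p x, ⟨x, x.2, rfl⟩⟩ := fun b x => rfl
  obtain ⟨F, hF1, hF2⟩ := IsAmalgam.exists_hom ⟨hCA, hCB, hle, hbij⟩ (fam true) (fam false) (by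
    intro c hA hB hc
    have h1 : p c = 1 := (QuotientGroup.eq_one_iff c).mpr hc
    have e1 : ∀ b (hb : c ∈ factors A B b), fam b ⟨c, hb⟩ = 1 := by
      intro b hb
      rw [hfam]
      have : (⟨p c, ⟨c, hb, rfl⟩⟩ : N b) = 1 := Subtype.ext h1
      rw [this, map_one]
    exact (e1 true hA).trans (e1 false hB).symm)
  have hF : ∀ b (x : factors A B b), F x = fam b x := by
    intro b x
    cases b
    · exact hF2 x
    · exact hF1 x
  -- surjectivity
  have hsurj : ∀ y, ∃ x, F x = y := by
    intro y
    induction y using CoprodI.induction_on with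
    | one => exact ⟨1, map_one F⟩
    | of b y =>
      obtain ⟨_, x, hx, rfl⟩ := y
      exact ⟨x, hF b ⟨x, hx⟩⟩
    | mul x y hx hy =>
      obtain ⟨a, rfl⟩ := hx
      obtain ⟨b, rfl⟩ := hy
      exact ⟨a * b, map_mul F a b⟩
  -- the kernel
  let R : CoprodI (fun b => N b) →* G ⧸ C := CoprodI.lift (fun b => (N b).subtype)
  have hgen : A ⊔ B = ⊤ := by
    rw [← top_le_iff]
    intro x _
    obtain ⟨y, rfl⟩ := hbij.2 x
    induction y using PushoutI.induction_on with
    | of i g =>
      have e1 := amalgHom_of A B C hle i g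
      rw [e1]
      cases i
      · exact Subgroup.mem_sup_right g.2
      · exact Subgroup.mem_sup_left g.2
    | base c =>
      rw [← PushoutI.of_apply_eq_base _ true c, amalgHom_of]
      exact Subgroup.mem_sup_left (hle true c.2)
    | mul x y hx hy =>
      rw [map_mul]
      exact Subgroup.mul_mem _ (hx trivial) (hy trivial)
  have hRF : R.comp F = p := by
    have hloc : A ⊔ B ≤ (R.comp F).eqLocus p := by
      rw [sup_le_iff]
      constructor
      · intro a ha
        have e1 := hF true ⟨a, ha⟩
        change R (F a) = p a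
        rw [show F a = fam true ⟨a, ha⟩ from e1, hfam]
        exact CoprodI.lift_of _ _
      · intro a ha
        have e1 := hF false ⟨a, ha⟩
        change R (F a) = p a
        rw [show F a = fam false ⟨a, ha⟩ from e1, hfam]
        exact CoprodI.lift_of _ _
    rw [hgen] at hloc
    ext x
    exact hloc (Subgroup.mem_top x)
  have hFz : F z = 1 := by
    apply central_eq_one hnt
    intro y
    obtain ⟨x, rfl⟩ := hsurj y
    rw [← map_mul, ← map_mul, hz]
  have h1 := DFunLike.congr_fun hRF z
  rw [MonoidHom.comp_apply, hFz, map_one] at h1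
  exact (QuotientGroup.eq_one_iff z).mp h1.symm

end Amalgam

end Y643.AC
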