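import Pool.Agent.Y643.AC.Hnn

/-!
The groups `M × (D * ℤ)`: splittings over `M × E` for subgroups `E` of `D`, and no splittings over
proper subgroups of `M`.
-/

set_option autoImplicit false

namespace Y643.AC

open Monoid Multiplicative Pool.Agent.Results.MP_4681e4_al.AscendingChain
  Pool.Agent.Results.MP_4681e4_al.AscendingHNN

section Constr

variable (M D : Type) [CommGroup M] [Group D]

/-- the group `M × (D * ℤ)` -/
abbrev Gp : Type := M × Coprod D (Multiplicative ℤ)

def iA : M × D →* Gp M D := MonoidHom.prodMap (MonoidHom.id M) Coprod.inl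
def iS : M × Multiplicative ℤ →* Gp M D := MonoidHom.prodMap (MonoidHom.id M) Coprod.inr

theorem iA_apply (m : M) (d : D) : iA M D (m, d) = (m, Coprod.inl d) := rfl
theorem iS_apply (m : M) (d : Multiplicative ℤ) : iS M D (m, d) = (m, Coprod.inr d) := rfl

theorem iA_inj : Function.Injective (iA M D) := by
  rintro ⟨a, b⟩ ⟨c, d⟩ h
  have h1 := congrArg Prod.fst h
  have h2 := Coprod.inl_injective (congrArg Prod.snd h)
  exact Prod.ext h1 h2

theorem iA_one (m : M) : iA M D (m, 1) = (m, 1) := by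
  rw [iA_apply, map_one]

theorem iS_one (m : M) : iS M D (m, 1) = (m, 1) := by
  rw [iS_apply, map_one]

def vA : Subgroup (Gp M D) := (iA M D).range

/-- the stable letter -/
def sl : Gp M D := (1, Coprod.inr (ofAdd 1))

variable {M D}

def vC (E : Subgroup D) : Subgroup (Gp M D) := ((⊤ : Subgroup M).prod E).map (iA M D)

theorem mem_vC {E : Subgroup D} {x : M × D} : iA M D x ∈ vC (M := M) E ↔ x.2 ∈ E := by
  unfold vC
  rw [Subgroup.mem_map_iff_mem (iA_inj M D), Subgroup.mem_prod]
  simp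

theorem m_mem_vC (E : Subgroup D) (m : M) : ((m, 1) : Gp M D) ∈ vC (M := M) E := by
  rw [← iA_one, mem_vC]
  exact E.one_mem

def vB (E : Subgroup D) : Subgroup (Gp M D) := vC E ⊔ (iS M D).range

theorem vC_le_vA (E : Subgroup D) : vC E ≤ vA M D := by
  rintro _ ⟨x, -, rfl⟩
  exact ⟨x, rfl⟩

theorem central (m : M) (x : Gp M D) : x * (m, 1) = (m, 1) * x := by
  apply Prod.ext
  · exact mul_comm _ _
  · change x.2 * 1 = 1 * x.2
    rw [mul_one, one_mul]

theorem gen : vA M D ⊔ (iS M D).range = ⊤ := by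
  rw [← top_le_iff]
  rintro ⟨m, p⟩ _
  have h1 : ((m, p) : Gp M D) = (m, 1) * (1, p) := by simp
  rw [h1]
  refine Subgroup.mul_mem _ (Subgroup.mem_sup_left ⟨(m, 1), iA_one M D m⟩) ?_
  induction p using Coprod.induction_on with
  | inl d => exact Subgroup.mem_sup_left ⟨(1, d), rfl⟩
  | inr s => exact Subgroup.mem_sup_right ⟨(1, s), rfl⟩
  | mul a b ha hb =>
    have h2 : ((1, a * b) : Gp M D) = (1, a) * (1, b) := by simp
    rw [h2]
    exact Subgroup.mul_mem _ (ha trivial (by simp)) (hb trivial (by simp))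

theorem exists_hom (X : Type) [Group X] (f : M × D →* X) (g : Multiplicative ℤ →* X)
    (hcomm : ∀ m s, Commute (f (m, 1)) (g s)) : ∃ F : Gp M D →* X,
    (∀ x, F (iA M D x) = f x) ∧ (∀ s, F (1, Coprod.inr s) = g s) := by
  let P : Coprod D (Multiplicative ℤ) →* X := Coprod.lift (f.comp (MonoidHom.inr M D)) g
  have hP1 : ∀ d, P (Coprod.inl d) = f (1, d) := fun d => Coprod.lift_apply_inl _ _ _
  have hP2 : ∀ d, P (Coprod.inr d) = g d := fun d => Coprod.lift_apply_inr _ _ _
  have hc : ∀ m p, Commute ((f.comp (MonoidHom.inl M D)) m) (P p) := by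
    intro m p
    change Commute (f (m, 1)) (P p)
    induction p using Coprod.induction_on with
    | inl d =>
      rw [hP1]
      have h : Commute ((m, 1) : M × D) (1, d) := by
        apply Prod.ext <;> simp
      exact h.map f
    | inr s =>
      rw [hP2]
      exact hcomm m s
    | mul a b ha hb =>
      rw [map_mul]
      exact ha.mul_right hb
  refine ⟨MonoidHom.noncommCoprod (f.comp (MonoidHom.inl M D)) P hc, ?_, ?_⟩
  · rintro ⟨m, d⟩
    rw [MonoidHom.noncommCoprod_apply]
    change f (m, 1) * P (Coprod.inl d) = f (m, d)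
    rw [hP1, ← map_mul]
    simp
  · intro s
    rw [MonoidHom.noncommCoprod_apply]
    change f (1, 1) * P (Coprod.inr s) = g s
    rw [hP2, show ((1, 1) : M × D) = 1 from rfl, map_one, one_mul]

theorem isAmalgam_v {E : Subgroup D} (hE : E ≠ ⊤) : IsAmalgam (vA M D) (vB E) (vC E) := by
  refine isAmalgam_of (vC_le_vA E) le_sup_left ?_ ?_ ?_ ?_
  · intro h
    apply hE
    rw [← top_le_iff]
    intro d _
    have h1 : iA M D (1, d) ∈ vC (M := M) E := by
      rw [h]; exact ⟨_, rfl⟩
    exact mem_vC.mp h1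
  · intro h
    have h1 : iS M D (1, ofAdd 1) ∈ vC (M := M) E := by
      rw [h]; exact Subgroup.mem_sup_right ⟨_, rfl⟩
    obtain ⟨⟨m, d⟩, hx⟩ := vC_le_vA E h1
    have h2 := congrArg (fun x : Gp M D => Coprod.snd x.2) hx
    change Coprod.snd (Coprod.inl d) = Coprod.snd (Coprod.inr (ofAdd 1)) at h2
    rw [Coprod.snd_apply_inl, Coprod.snd_apply_inr] at h2
    have h3 := congrArg toAdd h2
    simp at h3
  · rw [← top_le_iff, ← gen]
    exact sup_le le_sup_left (le_sup_of_le_right le_sup_right)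
  · intro X _ f g hfg
    let f' : M × D →* X := f.comp (iA M D).rangeRestrict
    have hle : (iS M D).range ≤ vB E := le_sup_right
    let g' : M × Multiplicative ℤ →* X :=
      g.comp ((Subgroup.inclusion hle).comp (iS M D).rangeRestrict)
    have hfg' : ∀ m, f' (m, 1) = g' (m, 1) := by
      intro m
      have h1 := m_mem_vC E m
      have h2 := hfg (m, 1) (vC_le_vA E h1) ((le_sup_left : vC E ≤ vB E) h1) h1
      have e1 : f' (m, 1) = f ⟨(m, 1), vC_le_vA E h1⟩ := congrArg f (Subtype.ext (iA_one M D m))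
      have e2 : g' (m, 1) = g ⟨(m, 1), (le_sup_left : vC E ≤ vB E) h1⟩ :=
        congrArg g (Subtype.ext (iS_one M D m))
      rw [e1, e2, h2]
    obtain ⟨F, hF1, hF2⟩ := exists_hom X f' (g'.comp (MonoidHom.inr M _)) (by
      intro m s
      rw [hfg']
      have h : Commute ((m, 1) : M × Multiplicative ℤ) (1, s) := by
        apply Prod.ext <;> simp
      exact h.map g')
    have hFA : ∀ a : vA M D, F a = f a := by
      rintro ⟨_, x, rfl⟩
      exact hF1 x
    refine ⟨F, hFA, ?_⟩
    have hle2 : vB E ≤ ((F.comp (vB E).subtype).eqLocus g).map (vB E).subtype := by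
      refine sup_le ?_ ?_
      · intro c hc
        refine ⟨⟨c, (le_sup_left : vC E ≤ vB E) hc⟩, ?_, rfl⟩
        exact (hFA ⟨c, vC_le_vA E hc⟩).trans (hfg c _ _ hc)
      · rintro _ ⟨⟨m, s⟩, rfl⟩
        refine ⟨⟨_, hle ⟨(m, s), rfl⟩⟩, ?_, rfl⟩
        change F (iS M D (m, s)) = g' (m, s)
        have h1 : iS M D (m, s) = iA M D (m, 1) * (1, Coprod.inr s) := by
          rw [iA_one, iS_apply]
          simp
        rw [h1, map_mul, hF1, hF2, hfg']
        change g' (m, 1) * g' (1, s) = g' (m, s)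
        rw [← map_mul]
        simp
    intro b
    obtain ⟨b', hb', hbb⟩ := hle2 b.2
    have : b' = b := Subtype.ext hbb
    rw [← this]
    exact hb'

theorem splits_v (E : Subgroup D) : SplitsHNN (vC (M := M) E) := by
  refine splits_of (vA M D ⊔ (vC E).map (MulAut.conj (sl M D)).toMonoidHom) (vC E) (sl M D)
    ((vC_le_vA E).trans le_sup_left) (fun c hc => Subgroup.mem_sup_right ⟨c, hc, rfl⟩) ?_ ?_
  · rw [← top_le_iff, ← gen]
    refine sup_le (le_sup_of_le_left le_sup_left) ?_
    rintro _ ⟨⟨m, s⟩, rfl⟩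
    have h1 : iS M D (m, s) = iA M D (m, 1) * (sl M D) ^ (toAdd s) := by
      rw [iA_one, iS_apply, sl]
      have h2 : ((1, Coprod.inr (ofAdd 1)) : Gp M D) ^ (toAdd s) = (1, Coprod.inr s) := by
        apply Prod.ext
        · simp
        · change (Coprod.inr (ofAdd (1 : ℤ)) : Coprod D (Multiplicative ℤ)) ^ (toAdd s) = Coprod.inr s
          rw [← map_zpow]
          congr 1
          rw [← ofAdd_zsmul]
          simp
      rw [h2]
      simp
    rw [h1]
    exact Subgroup.mul_mem _ (Subgroup.mem_sup_left (Subgroup.mem_sup_left ⟨_, rfl⟩))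
      (Subgroup.mem_sup_right (Subgroup.zpow_mem _ (Subgroup.mem_zpowers _) _))
  · intro X _ f x hx
    let H := vA M D ⊔ (vC E).map (MulAut.conj (sl M D)).toMonoidHom
    have hle : vA M D ≤ H := le_sup_left
    let f' : M × D →* X := f.comp ((Subgroup.inclusion hle).comp (iA M D).rangeRestrict)
    obtain ⟨F, hF1, hF2⟩ := exists_hom X f' (zpowersHom X x) (by
      intro m s
      have h1 := m_mem_vC E m
      have h2 := hx (m, 1) h1
      have e1 : f' (m, 1) = f ⟨(m, 1), hle (vC_le_vA E h1)⟩ :=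
        congrArg f (Subtype.ext (iA_one M D m))
      have h3 : sl M D * (m, 1) * (sl M D)⁻¹ = (m, 1) := by
        rw [central, mul_inv_cancel_right]
      have e2 : f ⟨sl M D * (m, 1) * (sl M D)⁻¹, Subgroup.mem_sup_right ⟨(m, 1), h1, rfl⟩⟩ =
          f ⟨(m, 1), hle (vC_le_vA E h1)⟩ := congrArg f (Subtype.ext h3)
      rw [e1]
      rw [e2] at h2
      rw [zpowersHom_apply]
      exact (Commute.zpow_right h2.symm _))
    have hFA : ∀ (a : Gp M D) (ha : a ∈ vA M D), F a = f ⟨a, hle ha⟩ := by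
      rintro _ ⟨y, rfl⟩
      exact hF1 y
    have hFs : F (sl M D) = x := by
      have h1 := hF2 (ofAdd 1)
      rw [zpowersHom_apply] at h1
      simpa [sl] using h1
    refine ⟨F, ?_, hFs⟩
    have hle2 : H ≤ ((F.comp H.subtype).eqLocus f).map H.subtype := by
      refine sup_le ?_ ?_
      · intro a ha
        exact ⟨⟨a, hle ha⟩, hFA a ha, rfl⟩
      · rintro _ ⟨c, hc, rfl⟩
        refine ⟨⟨_, Subgroup.mem_sup_right ⟨c, hc, rfl⟩⟩, ?_, rfl⟩
        have h1 := hx c hc
        change F (sl M D * c * (sl M D)⁻¹) = f ⟨sl M D * c * (sl M D)⁻¹, _⟩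
        rw [map_mul, map_mul, map_inv, hFs, hFA c (vC_le_vA E hc), h1, mul_inv_cancel_right]
    intro b
    obtain ⟨b', hb', hbb⟩ := hle2 b.2
    have : b' = b := Subtype.ext hbb
    rw [← this]
    exact hb'

end Constr

end Y643.AC
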