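import Pool.Agent.Y643.AC.Center

/-!
Central elements of HNN extensions over central subgroups, and the centre of free products.
-/

set_option autoImplicit false

namespace Y643.AC

open Monoid Multiplicative Pool.Agent.Results.MP_4681e4_al.AscendingChain
  Pool.Agent.Results.MP_4681e4_al.AscendingHNN

section Two

/-- the family of two groups -/
def Fam (P Q : Type) : Bool → Type
  | true => P
  | false => Q

instance famGroup (P Q : Type) [Group P] [Group Q] : ∀ b, Group (Fam P Q b)
  | true => inferInstanceAs (Group P)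
  | false => inferInstanceAs (Group Q)

variable (P Q : Type) [Group P] [Group Q]

def il : P →* CoprodI (Fam P Q) := CoprodI.of (M := Fam P Q) (i := true)
def ir : Q →* CoprodI (Fam P Q) := CoprodI.of (M := Fam P Q) (i := false)

def toI : Coprod P Q →* CoprodI (Fam P Q) := Coprod.lift (il P Q) (ir P Q)

def back : ∀ b, Fam P Q b →* Coprod P Q
  | true => (Coprod.inl : P →* Coprod P Q)
  | false => (Coprod.inr : Q →* Coprod P Q)

def ofI : CoprodI (Fam P Q) →* Coprod P Q := CoprodI.lift (back P Q)

theorem ofI_toI (x : Coprod P Q) : ofI P Q (toI P Q x) = x := by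
  have h : (ofI P Q).comp (toI P Q) = MonoidHom.id _ := by
    apply Coprod.hom_ext
    · ext x
      change ofI P Q (toI P Q (Coprod.inl x)) = Coprod.inl x
      rw [toI, Coprod.lift_apply_inl]
      exact CoprodI.lift_of (back P Q) (i := true) x
    · ext x
      change ofI P Q (toI P Q (Coprod.inr x)) = Coprod.inr x
      rw [toI, Coprod.lift_apply_inr]
      exact CoprodI.lift_of (back P Q) (i := false) x
  exact DFunLike.congr_fun h x

theorem toI_surj (y : CoprodI (Fam P Q)) : ∃ x, toI P Q x = y := by
  induction y using CoprodI.induction_on with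
  | one => exact ⟨1, map_one _⟩
  | of b y =>
    cases b
    · exact ⟨Coprod.inr y, Coprod.lift_apply_inr _ _ _⟩
    · exact ⟨Coprod.inl y, Coprod.lift_apply_inl _ _ _⟩
  | mul x y hx hy =>
    obtain ⟨a, rfl⟩ := hx
    obtain ⟨b, rfl⟩ := hy
    exact ⟨a * b, map_mul _ a b⟩

variable {P Q}

theorem coprod_central [hP : Nontrivial P] [hQ : Nontrivial Q] (z : Coprod P Q)
    (hz : ∀ x, x * z = z * x) : z = 1 := by
  have h1 : toI P Q z = 1 := by
    apply central_eq_one (M := Fam P Q)
    · intro b
      cases b
      · exact hQ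
      · exact hP
    · intro y
      obtain ⟨x, rfl⟩ := toI_surj P Q y
      rw [← map_mul, ← map_mul, hz]
  rw [← ofI_toI P Q z, h1, map_one]

theorem coprod_not_commute (p : P) (hp : p ≠ 1) (q : Q) (hq : q ≠ 1) :
    Coprod.inl p * Coprod.inr q ≠ (Coprod.inr q * Coprod.inl p : Coprod P Q) := by
  intro h
  have h1 := congrArg (toI P Q) h
  rw [map_mul, map_mul] at h1
  rw [show toI P Q (Coprod.inl p) = il P Q p from Coprod.lift_apply_inl _ _ _,
    show toI P Q (Coprod.inr q) = ir P Q q from Coprod.lift_apply_inr _ _ _] at h1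
  exact not_commute (M := Fam P Q) p hp q hq h1

end Two

section HNN

variable {G : Type} [Group G]

/-- A central element of an HNN extension over a central subgroup lies in this subgroup. -/
theorem central_mem_of_hnn {C : Subgroup G} (hC : ∀ c ∈ C, ∀ x, x * c = c * x) (h : SplitsHNN C)
    (hna : ∃ x y : G, x * y ≠ y * x) (z : G) (hz : ∀ x, x * z = z * x) : z ∈ C := by
  have hN : C.Normal := ⟨fun c hc g => by rw [hC c hc g, mul_assoc, mul_inv_cancel, mul_one]; exact hc⟩
  obtain ⟨H, B, φ, t, ht, hCH, hbij⟩ := h
  let p := QuotientGroup.mk' C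
  let e := MulEquiv.ofBijective _ hbij
  have he : ∀ y, e y = HNNExtension.lift H.subtype t ht y := fun y => rfl
  have heH : ∀ a : H, e.symm (a : G) = HNNExtension.of a := by
    intro a
    rw [MulEquiv.symm_apply_eq, he, HNNExtension.lift_of]
    rfl
  have het : e.symm t = HNNExtension.t := by
    rw [MulEquiv.symm_apply_eq, he, HNNExtension.lift_t]
  have hgen : H ⊔ Subgroup.zpowers t = ⊤ := by
    rw [← top_le_iff]
    intro x _
    obtain ⟨y, rfl⟩ := hbij.2 x
    induction y using HNNExtension.induction_on with
    | of g =>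
      rw [HNNExtension.lift_of]
      exact Subgroup.mem_sup_left g.2
    | t =>
      rw [HNNExtension.lift_t]
      exact Subgroup.mem_sup_right (Subgroup.mem_zpowers t)
    | mul x y hx hy =>
      rw [map_mul]
      exact Subgroup.mul_mem _ (hx trivial) (hy trivial)
    | inv x hx =>
      rw [map_inv]
      exact Subgroup.inv_mem _ (hx trivial)
  by_cases hHC : H ≤ C
  · exfalso
    obtain ⟨x, y, hxy⟩ := hna
    apply hxy
    have hCc : C ≤ Subgroup.center G := fun c hc => Subgroup.mem_center_iff.mpr (hC c hc)
    have htc : t ∈ Subgroup.center G := by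
      rw [Subgroup.mem_center_iff]
      intro g
      have h1 : H ⊔ Subgroup.zpowers t ≤ Subgroup.centralizer {t} := by
        rw [sup_le_iff]
        constructor
        · intro a ha
          rw [Subgroup.mem_centralizer_singleton_iff]
          exact (hC a (hHC ha) t).symm
        · rw [Subgroup.zpowers_le, Subgroup.mem_centralizer_singleton_iff]
      have h2 : g ∈ Subgroup.centralizer {t} := h1 (by rw [hgen]; exact Subgroup.mem_top g)
      rw [Subgroup.mem_centralizer_singleton_iff] at h2
      exact h2
    have h3 : H ⊔ Subgroup.zpowers t ≤ Subgroup.center G := by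
      rw [sup_le_iff]
      exact ⟨hHC.trans hCc, by rw [Subgroup.zpowers_le]; exact htc⟩
    have h4 : y ∈ Subgroup.center G := h3 (by rw [hgen]; exact Subgroup.mem_top y)
    exact Subgroup.mem_center_iff.mp h4 x
  · obtain ⟨a, haH, haC⟩ := SetLike.not_le_iff_exists.mp hHC
    have hnt : Nontrivial (H.map p) := by
      refine ⟨⟨⟨p a, ⟨a, haH, rfl⟩⟩, 1, ?_⟩⟩
      intro h1
      apply haC
      exact (QuotientGroup.eq_one_iff a).mp (congrArg Subtype.val h1)
    let f : H →* Coprod (H.map p) (Multiplicative ℤ) := Coprod.inl.comp (p.subgroupMap H)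
    have hf : ∀ (a : G) (ha : a ∈ H), f ⟨a, ha⟩ = Coprod.inl ⟨p a, ⟨a, ha, rfl⟩⟩ := fun a ha => rfl
    have hf1 : ∀ (a : G) (ha : a ∈ H), a ∈ C → f ⟨a, ha⟩ = 1 := by
      intro a ha hc
      rw [hf]
      have : (⟨p a, ⟨a, ha, rfl⟩⟩ : H.map p) = 1 := Subtype.ext ((QuotientGroup.eq_one_iff a).mpr hc)
      rw [this, map_one]
    let x : Coprod (H.map p) (Multiplicative ℤ) := Coprod.inr (ofAdd 1)
    have hx : ∀ a : C.subgroupOf H, x * f (a : H) = f (φ a : H) * x := by
      intro a
      have h1 : ((a : H) : G) ∈ C := a.2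
      have h2 := ht a
      have h3 : ((φ a : H) : G) = ((a : H) : G) := by
        have h4 : t * ((a : H) : G) = ((φ a : H) : G) * t := h2
        rw [hC _ h1 t] at h4
        exact (mul_right_cancel h4).symm
      have h5 : f (a : H) = 1 := hf1 _ (a : H).2 h1
      have h6 : f (φ a : H) = 1 := hf1 _ (φ a : H).2 (by rw [h3]; exact h1)
      rw [h5, h6, mul_one, one_mul]
    let F : G →* Coprod (H.map p) (Multiplicative ℤ) :=
      (HNNExtension.lift f x hx).comp e.symm.toMonoidHom
    have hFH : ∀ a : H, F a = f a := by
      intro a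
      change HNNExtension.lift f x hx (e.symm a) = f a
      rw [heH, HNNExtension.lift_of]
    have hFt : F t = x := by
      change HNNExtension.lift f x hx (e.symm t) = x
      rw [het, HNNExtension.lift_t]
    have hsurj : ∀ y, ∃ g, F g = y := by
      intro y
      induction y using Coprod.induction_on with
      | inl m =>
        obtain ⟨_, g, hg, rfl⟩ := m
        exact ⟨g, hFH ⟨g, hg⟩⟩
      | inr n =>
        refine ⟨t ^ (toAdd n), ?_⟩
        rw [map_zpow, hFt, ← map_zpow]
        congr 1
        rw [← ofAdd_zsmul]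
        simp
      | mul a b ha hb =>
        obtain ⟨g, rfl⟩ := ha
        obtain ⟨g', rfl⟩ := hb
        exact ⟨g * g', map_mul F g g'⟩
    let R : Coprod (H.map p) (Multiplicative ℤ) →* G ⧸ C :=
      Coprod.lift (H.map p).subtype (zpowersHom _ (p t))
    have hRF : ∀ g, R (F g) = p g := by
      have hloc : H ⊔ Subgroup.zpowers t ≤ (R.comp F).eqLocus p := by
        rw [sup_le_iff]
        constructor
        · intro a ha
          change R (F a) = p a
          rw [show F a = f ⟨a, ha⟩ from hFH ⟨a, ha⟩, hf, Coprod.lift_apply_inl]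
          rfl
        · rw [Subgroup.zpowers_le]
          change R (F t) = p t
          rw [hFt, Coprod.lift_apply_inr]
          simp
      intro g
      exact hloc (by rw [hgen]; exact Subgroup.mem_top g)
    have hFz : F z = 1 := by
      apply coprod_central
      intro y
      obtain ⟨g, rfl⟩ := hsurj y
      rw [← map_mul, ← map_mul, hz]
    have h1 := hRF z
    rw [hFz, map_one] at h1
    exact (QuotientGroup.eq_one_iff z).mp h1.symm

end HNN

end Y643.AC
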