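import Pool.Agent.Y643.AC.Constr

/-!
Finiteness properties and the absence of splittings of the groups `M × (D * ℤ)`; the group `BS(1,2)`.
-/

set_option autoImplicit false

namespace Y643.AC

open Monoid Multiplicative Pool.Agent.Results.MP_4681e4_al.AscendingChain
  Pool.Agent.Results.MP_4681e4_al.AscendingHNN

section Fin

theorem fg_of_map_ker {G1 G2 : Type} [Group G1] [Group G2] (q : G1 →* G2) (K : Subgroup G1)
    (h1 : (K.map q).FG) (h2 : (K ⊓ q.ker).FG) : K.FG := by
  rw [Subgroup.fg_iff] at h1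
  obtain ⟨S, hS, hfin⟩ := h1
  have h3 : ∀ s : S, ∃ k ∈ K, q k = s := fun s => by
    have : (s : G2) ∈ K.map q := by rw [← hS]; exact Subgroup.subset_closure s.2
    exact this
  choose r hrK hr using h3
  have hfinT : (Set.range r).Finite := by
    have := hfin.to_subtype
    exact Set.finite_range r
  have hT : Subgroup.closure (Set.range r) ≤ K := by
    rw [Subgroup.closure_le]
    rintro _ ⟨s, rfl⟩
    exact hrK s
  have hmap : (Subgroup.closure (Set.range r)).map q = K.map q := by
    rw [MonoidHom.map_closure, ← hS]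
    congr 1
    ext x
    constructor
    · rintro ⟨_, ⟨s, rfl⟩, rfl⟩
      rw [hr]
      exact s.2
    · intro hx
      exact ⟨r ⟨x, hx⟩, ⟨_, rfl⟩, hr _⟩
  have hK : K = Subgroup.closure (Set.range r) ⊔ (K ⊓ q.ker) := by
    apply le_antisymm
    · intro k hk
      have h4 : q k ∈ (Subgroup.closure (Set.range r)).map q := by
        rw [hmap]
        exact ⟨k, hk, rfl⟩
      obtain ⟨t, ht, htk⟩ := h4
      have h5 : t⁻¹ * k ∈ K ⊓ q.ker := by
        refine ⟨K.mul_mem (K.inv_mem (hT ht)) hk, ?_⟩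
        change q (t⁻¹ * k) = 1
        rw [map_mul, map_inv, htk, inv_mul_cancel]
      have h6 : k = t * (t⁻¹ * k) := by group
      rw [h6]
      exact Subgroup.mul_mem _ (Subgroup.mem_sup_left ht) (Subgroup.mem_sup_right h5)
    · exact sup_le hT inf_le_left
  rw [hK]
  exact Subgroup.FG.sup ((Subgroup.fg_iff _).mpr ⟨_, rfl, hfinT⟩) h2

theorem fg_sub_comm {M : Type} [CommGroup M] (hM : Group.FG M) (K : Subgroup M) : K.FG := by
  have h1 : Module.Finite ℤ (Additive M) :=
    Module.Finite.iff_addGroup_fg.mpr (GroupFG.iff_add_fg.mp hM)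
  rw [Subgroup.fg_iff_add_fg]
  have h3 : (AddSubgroup.toIntSubmodule (Subgroup.toAddSubgroup K) :
      Submodule ℤ (Additive M)).FG := IsNoetherian.noetherian _
  rw [Submodule.fg_iff_addSubgroup_fg] at h3
  exact h3

variable {M D : Type} [CommGroup M] [Group D]

theorem slender_v (hM : Group.FG M) {E : Subgroup D} (hE : Slender E) :
    Slender (vC (M := M) E) := by
  intro K hK
  have h1 : K = (K.comap (iA M D)).map (iA M D) := by
    rw [Subgroup.map_comap_eq]
    exact (inf_eq_right.mpr (hK.trans (vC_le_vA E))).symm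
  rw [h1]
  apply fg_map
  have h2 : ∀ x ∈ K.comap (iA M D), x.2 ∈ E := fun x hx => mem_vC.mp (hK hx)
  apply fg_of_map_ker (MonoidHom.snd M D)
  · apply hE
    rintro _ ⟨x, hx, rfl⟩
    exact h2 x hx
  · have h3 : (K.comap (iA M D)) ⊓ (MonoidHom.snd M D).ker =
        ((K.comap (iA M D)).comap (MonoidHom.inl M D)).map (MonoidHom.inl M D) := by
      ext ⟨m, d⟩
      constructor
      · rintro ⟨hx, hd⟩
        have hd1 : d = 1 := hd
        subst hd1
        exact ⟨m, hx, rfl⟩
      · rintro ⟨m', hm', h4⟩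
        have h5 : (m', (1 : D)) = (m, d) := h4
        rw [← h5]
        exact ⟨hm', rfl⟩
    rw [h3]
    exact fg_map _ (fg_sub_comm hM _)

theorem fg_coprod {P Q : Type} [Group P] [Group Q] (hP : Group.FG P) (hQ : Group.FG Q) :
    Group.FG (Coprod P Q) := by
  rw [Group.fg_def, ← Coprod.range_inl_sup_range_inr]
  exact Subgroup.FG.sup ((Group.fg_iff_subgroup_fg _).mp (Group.fg_range _))
    ((Group.fg_iff_subgroup_fg _).mp (Group.fg_range _))

theorem fg_Gp (hM : Group.FG M) (hD : Group.FG D) : Group.FG (Gp M D) := by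
  have h1 : Group.FG (Multiplicative ℤ) := inferInstance
  have h2 := fg_coprod hD h1
  infer_instance

theorem fp_fg {P : Type} [Group P] (hP : Group.IsFinitelyPresented P) : Group.FG P := by
  obtain ⟨n, φ, hφ, -⟩ := hP.out
  exact Group.fg_of_surjective hφ

theorem fp_prod {P Q : Type} [Group P] [Group Q] (hP : Group.IsFinitelyPresented P)
    (hQ : Group.IsFinitelyPresented Q) : Group.IsFinitelyPresented (P × Q) := by
  obtain ⟨S, hS, hSf⟩ := Group.fg_iff.mp (fp_fg hP)
  obtain ⟨T, hT, hTf⟩ := Group.fg_iff.mp (fp_fg hQ)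
  let R : Set (Coprod P Q) := (fun x : P × Q => Coprod.inl x.1 * Coprod.inr x.2 *
    (Coprod.inl x.1)⁻¹ * (Coprod.inr x.2)⁻¹) '' (S ×ˢ T)
  refine Group.IsFinitelyPresented.of_surjective (Coprod.toProd : Coprod P Q →* P × Q)
    Coprod.toProd_surjective ⟨R, (hSf.prod hTf).image _, ?_⟩
  apply le_antisymm
  · apply Subgroup.normalClosure_le_normal
    rintro _ ⟨x, -, rfl⟩
    change Coprod.toProd _ = 1
    rw [map_mul, map_mul, map_mul, map_inv, map_inv, Coprod.toProd_apply_inl,
      Coprod.toProd_apply_inr]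
    apply Prod.ext <;> simp
  · intro x hx
    let p := QuotientGroup.mk' (Subgroup.normalClosure R)
    have h0 : ∀ a ∈ S, ∀ b ∈ T, p (Coprod.inl a) * p (Coprod.inr b) =
        p (Coprod.inr b) * p (Coprod.inl a) := by
      intro a ha b hb
      have h1 : p (Coprod.inl a * Coprod.inr b * (Coprod.inl a)⁻¹ * (Coprod.inr b)⁻¹) = 1 :=
        (QuotientGroup.eq_one_iff _).mpr (Subgroup.subset_normalClosure ⟨(a, b), ⟨ha, hb⟩, rfl⟩)
      rw [map_mul, map_mul, map_mul, map_inv, map_inv, mul_inv_eq_one, mul_inv_eq_iff_eq_mul] at h1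
      exact h1
    have h1 : ∀ a : P, ∀ b ∈ T, p (Coprod.inl a) * p (Coprod.inr b) =
        p (Coprod.inr b) * p (Coprod.inl a) := by
      intro a b hb
      have h2 : Subgroup.closure S ≤
          (Subgroup.centralizer {p (Coprod.inr b)}).comap (p.comp Coprod.inl) := by
        rw [Subgroup.closure_le]
        intro a ha
        change p (Coprod.inl a) ∈ Subgroup.centralizer {p (Coprod.inr b)}
        rw [Subgroup.mem_centralizer_singleton_iff]
        exact h0 a ha b hb
      have h3 := h2 (show a ∈ Subgroup.closure S by rw [hS]; exact Subgroup.mem_top a)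
      change p (Coprod.inl a) ∈ Subgroup.centralizer {p (Coprod.inr b)} at h3
      rw [Subgroup.mem_centralizer_singleton_iff] at h3
      exact h3
    have h4 : ∀ (a : P) (b : Q), Commute ((p.comp Coprod.inl) a) ((p.comp Coprod.inr) b) := by
      intro a b
      have h2 : Subgroup.closure T ≤
          (Subgroup.centralizer {p (Coprod.inl a)}).comap (p.comp Coprod.inr) := by
        rw [Subgroup.closure_le]
        intro b hb
        change p (Coprod.inr b) ∈ Subgroup.centralizer {p (Coprod.inl a)}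
        rw [Subgroup.mem_centralizer_singleton_iff]
        exact (h1 a b hb).symm
      have h3 := h2 (show b ∈ Subgroup.closure T by rw [hT]; exact Subgroup.mem_top b)
      change p (Coprod.inr b) ∈ Subgroup.centralizer {p (Coprod.inl a)} at h3
      rw [Subgroup.mem_centralizer_singleton_iff] at h3
      exact h3.symm
    have h5 : (MonoidHom.noncommCoprod (p.comp Coprod.inl) (p.comp Coprod.inr) h4).comp
        (Coprod.toProd : Coprod P Q →* P × Q) = p := by
      apply Coprod.hom_ext
      · ext a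
        simp [MonoidHom.noncommCoprod_apply]
      · ext a
        simp [MonoidHom.noncommCoprod_apply]
    have h6 := DFunLike.congr_fun h5 x
    have h7 : Coprod.toProd x = 1 := hx
    rw [MonoidHom.comp_apply, h7, map_one] at h6
    exact (QuotientGroup.eq_one_iff x).mp h6.symm

theorem fp_Gp (hM : Group.IsFinitelyPresented M) (hD : Group.IsFinitelyPresented D) :
    Group.IsFinitelyPresented (Gp M D) := by
  have h2 : Group.IsFinitelyPresented (Coprod D (Multiplicative ℤ)) := inferInstance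
  exact fp_prod hM h2

theorem mem_vC_bot (c : Gp M D) : c ∈ vC (M := M) (⊥ : Subgroup D) ↔ c.2 = 1 := by
  constructor
  · rintro ⟨⟨m, d⟩, ⟨-, hd⟩, rfl⟩
    have hd1 : d = 1 := hd
    subst hd1
    rw [iA_one]
  · obtain ⟨m, p⟩ := c
    intro hp
    have hp1 : p = 1 := hp
    subst hp1
    exact m_mem_vC _ m

theorem below_central {C' : Subgroup (Gp M D)} (h : C' ≤ vC (⊥ : Subgroup D)) :
    ∀ c ∈ C', ∀ x, x * c = c * x := by
  rintro ⟨m, p⟩ hc x
  have hp : p = 1 := (mem_vC_bot _).mp (h hc)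
  subst hp
  exact central m x

theorem no_amalgam {C' : Subgroup (Gp M D)} (h : C' < vC (⊥ : Subgroup D))
    (A' B' : Subgroup (Gp M D)) : ¬ IsAmalgam A' B' C' := by
  intro hA
  have hC := below_central h.le
  have hN : C'.Normal :=
    ⟨fun c hc g => by rw [hC c hc g, mul_assoc, mul_inv_cancel, mul_one]; exact hc⟩
  apply h.not_ge
  rintro ⟨m, p⟩ hc
  have hp : p = 1 := (mem_vC_bot _).mp hc
  subst hp
  exact central_mem_of_amalgam hA _ (central m)

theorem no_hnn [hD : Nontrivial D] {C' : Subgroup (Gp M D)} (h : C' < vC (⊥ : Subgroup D)) :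
    ¬ SplitsHNN C' := by
  intro hA
  have hC := below_central h.le
  apply h.not_ge
  rintro ⟨m, p⟩ hc
  have hp : p = 1 := (mem_vC_bot _).mp hc
  subst hp
  refine central_mem_of_hnn hC hA ?_ _ (central m)
  obtain ⟨d, hd⟩ := exists_ne (1 : D)
  refine ⟨(1, Coprod.inl d), (1, Coprod.inr (ofAdd 1)), ?_⟩
  intro h1
  have h2 := congrArg Prod.snd h1
  refine coprod_not_commute d hd (ofAdd 1) ?_ h2
  intro h3
  have h4 := congrArg toAdd h3
  simp at h4

theorem infinite_v (hM : Infinite M) (E : Subgroup D) : Infinite (vC (M := M) E) :=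
  Infinite.of_injective (fun m : M => (⟨(m, 1), m_mem_vC E m⟩ : vC (M := M) E))
    (fun _ _ h => congrArg (fun x : vC (M := M) E => x.1.1) h)

theorem vC_lt {E E' : Subgroup D} (h : E < E') : vC (M := M) E < vC E' := by
  rw [SetLike.lt_iff_le_and_exists]
  constructor
  · rintro _ ⟨x, hx, rfl⟩
    exact mem_vC.mpr (h.le hx.2)
  · obtain ⟨d, hd, hd'⟩ := SetLike.exists_of_lt h
    exact ⟨iA M D (1, d), mem_vC.mpr hd, fun h1 => hd' (mem_vC.mp h1)⟩

end Fin

noncomputable section BS

/-- the relator of `BS(1,2)` -/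
def rel : FreeGroup Bool :=
  FreeGroup.of true * FreeGroup.of false * (FreeGroup.of true)⁻¹ * (FreeGroup.of false ^ 2)⁻¹

/-- `BS(1,2)` -/
abbrev BS : Type := PresentedGroup ({rel} : Set (FreeGroup Bool))

def ba : BS := PresentedGroup.of false
def bb : BS := PresentedGroup.of true

theorem bs_rel : bb * ba * bb⁻¹ = ba ^ 2 := by
  have h : PresentedGroup.mk ({rel} : Set (FreeGroup Bool)) rel = 1 :=
    PresentedGroup.one_of_mem (by simp)
  unfold rel at h
  rw [map_mul, map_mul, map_mul, map_inv, map_inv, map_pow, mul_inv_eq_one] at h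
  exact h

def repF : Bool → Equiv.Perm ℚ
  | true => delta
  | false => tau

theorem rep_rel : ∀ r ∈ ({rel} : Set (FreeGroup Bool)), FreeGroup.lift repF r = 1 := by
  intro r hr
  rw [Set.mem_singleton_iff] at hr
  subst hr
  unfold rel
  rw [map_mul, map_mul, map_mul, map_inv, map_inv, map_pow, FreeGroup.lift_apply_of,
    FreeGroup.lift_apply_of, mul_inv_eq_one]
  ext x
  change (delta * tau * delta⁻¹) x = (tau ^ 2) x
  have h2 := delta_inv_pow 1 x
  rw [pow_one, pow_one] at h2
  rw [Equiv.Perm.mul_apply, Equiv.Perm.mul_apply, h2, pow_two, Equiv.Perm.mul_apply]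
  change (2 : ℚ) * (x / 2 + 1) = x + 1 + 1
  ring

def rep : BS →* Equiv.Perm ℚ := PresentedGroup.toGroup rep_rel

theorem rep_a : rep ba = tau := PresentedGroup.toGroup.of _
theorem rep_b : rep bb = delta := PresentedGroup.toGroup.of _

def tt : ℕ → BS
  | 0 => 1
  | n + 1 => bb⁻¹ ^ n * ba * bb ^ n

theorem tt_sq (n : ℕ) : tt (n + 2) ^ 2 = tt (n + 1) := by
  change (bb⁻¹ ^ (n + 1) * ba * bb ^ (n + 1)) ^ 2 = bb⁻¹ ^ n * ba * bb ^ n
  have h1 : (bb⁻¹ ^ (n + 1) * ba * bb ^ (n + 1)) ^ 2 = bb⁻¹ ^ (n + 1) * ba ^ 2 * bb ^ (n + 1) := by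
    rw [pow_two, pow_two, inv_pow]
    group
  rw [h1, ← bs_rel, pow_succ, pow_succ']
  group

theorem rep_tt (n : ℕ) : rep (tt n) = (t n : Equiv.Perm ℚ) := by
  cases n with
  | zero => exact map_one rep
  | succ n =>
    have : rep (tt (n + 1)) = rep (bb⁻¹ ^ n * ba * bb ^ n) := rfl
    rw [this, map_mul, map_mul, map_pow, map_pow, map_inv, rep_a, rep_b]
    rfl

theorem tt_mem (n : ℕ) : tt n ∈ Subgroup.zpowers (tt (n + 1)) := by
  cases n with
  | zero => exact Subgroup.one_mem _
  | succ n =>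
    rw [← tt_sq n]
    exact Subgroup.pow_mem _ (Subgroup.mem_zpowers _) 2

theorem tt_not_mem (n : ℕ) : tt (n + 1) ∉ Subgroup.zpowers (tt n) := by
  rintro ⟨j, hj⟩
  apply t_not_mem n
  refine ⟨j, Subtype.ext ?_⟩
  have h := congrArg rep hj
  change rep (tt n ^ j) = _ at h
  rw [map_zpow, rep_tt, rep_tt] at h
  exact h

def chainE (n : ℕ) : Subgroup BS := Subgroup.zpowers (tt n)

theorem chainE_zero : chainE 0 = ⊥ := by
  unfold chainE
  rw [show tt 0 = 1 from rfl, Subgroup.zpowers_one_eq_bot]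

theorem chainE_lt (n : ℕ) : chainE n < chainE (n + 1) := by
  rw [SetLike.lt_iff_le_and_exists]
  refine ⟨?_, tt (n + 1), Subgroup.mem_zpowers _, tt_not_mem n⟩
  unfold chainE
  rw [Subgroup.zpowers_le]
  exact tt_mem n

theorem chainE_slender (n : ℕ) : Slender (chainE n) := by
  intro K hK
  have h1 : K = (K.comap (zpowersHom BS (tt n))).map (zpowersHom BS (tt n)) := by
    rw [Subgroup.map_comap_eq, inf_eq_right.mpr]
    intro x hx
    obtain ⟨j, hj⟩ := hK hx
    exact ⟨ofAdd j, hj⟩
  rw [h1]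
  exact fg_map _ (fg_sub_comm inferInstance _)

theorem fp_BS : Group.IsFinitelyPresented BS := inferInstance

end BS

end Y643.AC
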